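import Pool.Agent.HexTP.Lower
import Pool.Agent.EXL.FinalPre
import Pool.Agent.EXL.GlFin
import Pool.Agent.Ex.P2Main

/-!
GLd, section 5.2 of AXIAL_h87: the weight of the arcs of a strip of `T ≥ A N` rows whose displacement is between `N` and
`2 N` is at least a constant times `N ^ (-1/4)`.
-/

set_option autoImplicit false

namespace HexObs

namespace GLd

open Finset ENNReal HexObs.TP

/-- two sided bounds of the bridges -/
theorem bT_two : ∃ C : ℝ, 0 < C ∧ ∀ T : ℕ, 1 ≤ T →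
    (T : ℝ) ^ (-(1 / 4) : ℝ) / C ≤ bT T ∧ bT T ≤ C * (T : ℝ) ^ (-(1 / 4) : ℝ) := by
  obtain ⟨C0, hC0, h0⟩ := Ex.P2.main (fun n => HexObs.bT_nonneg n) (fun _ _ h => Pool.Agent.EXL.bT_anti h)
    (fun _ => rfl) Pool.Agent.EXL.Glue.relE_bT
  exact ⟨C0, hC0, h0⟩

/-- arcs of displacement between N and 2 N -/
theorem del_lowN : ∃ A : ℕ, 1 ≤ A ∧ ∃ c : ℝ, 0 < c ∧ ∀ N T : ℕ, 1 ≤ N → A * N ≤ T →
    c * (N : ℝ) ^ (-(1 / 4) : ℝ) ≤ ∑ d ∈ Ico N (2 * N), gT T d := by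
  obtain ⟨c, hc, A, hA, h⟩ := gT_ge
  obtain ⟨C, hC, hb⟩ := bT_two
  refine ⟨2 * A, by omega, c / C * 2 ^ (-(5 / 4) : ℝ), by positivity, fun N T hN hT => ?_⟩
  have hN0 : (0 : ℝ) < N := by exact_mod_cast hN
  have hterm : ∀ d ∈ Ico N (2 * N), c / C * (2 * (N : ℝ)) ^ (-(5 / 4) : ℝ) ≤ gT T d := by
    intro d hd
    rw [mem_Ico] at hd
    have hd1 : 1 ≤ d := by omega
    have hd0 : (0 : ℝ) < d := by exact_mod_cast hd1
    have h1 := h d T hd1 (le_trans (by nlinarith) hT)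
    have h2 := (hb d hd1).1
    have h3 : c / C * (d : ℝ) ^ (-(1 / 4) : ℝ) ≤ d * gT T d := by
      refine le_trans ?_ h1
      calc c / C * (d : ℝ) ^ (-(1 / 4) : ℝ) = c * ((d : ℝ) ^ (-(1 / 4) : ℝ) / C) := by ring
        _ ≤ c * bT d := mul_le_mul_of_nonneg_left h2 hc.le
    have h4 : c / C * (d : ℝ) ^ (-(5 / 4) : ℝ) ≤ gT T d := by
      have e : (d : ℝ) ^ (-(5 / 4) : ℝ) = (d : ℝ) ^ (-(1 / 4) : ℝ) / d := by
        rw [show (-(5 / 4) : ℝ) = -(1 / 4) - 1 by norm_num, Real.rpow_sub hd0, Real.rpow_one]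
      rw [e, ← mul_div_assoc, div_le_iff₀ hd0]
      linarith
    refine le_trans (mul_le_mul_of_nonneg_left ?_ (by positivity)) h4
    refine Real.rpow_le_rpow_of_nonpos hd0 ?_ (by norm_num)
    have : d ≤ 2 * N := by omega
    exact_mod_cast this
  have h5 := card_nsmul_le_sum (Ico N (2 * N)) (gT T) _ hterm
  refine le_trans (le_of_eq ?_) h5
  rw [Nat.card_Ico, nsmul_eq_mul, Real.mul_rpow (by norm_num) hN0.le]
  have e1 : ((2 * N - N : ℕ) : ℝ) = N := by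
    rw [show 2 * N - N = N by omega]
  have e2 : (N : ℝ) ^ (-(1 / 4) : ℝ) = N * (N : ℝ) ^ (-(5 / 4) : ℝ) := by
    rw [show (-(1 / 4) : ℝ) = 1 + -(5 / 4) by norm_num, Real.rpow_add hN0, Real.rpow_one]
  rw [e1, e2]
  ring

/-- the same in `ENNReal`, for the sum over all displacements `≥ N` -/
theorem del_lowE : ∃ A : ℕ, 1 ≤ A ∧ ∃ c : ℝ, 0 < c ∧ ∀ N T : ℕ, 1 ≤ N → A * N ≤ T →
    ENNReal.ofReal (c * (N : ℝ) ^ (-(1 / 4) : ℝ)) ≤ ∑' k : ℕ, GG T (N + k) := by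
  obtain ⟨A, hA, c, hc, h⟩ := del_lowN
  refine ⟨A, hA, c, hc, fun N T hN hT => ?_⟩
  have hT1 : 1 ≤ T := by nlinarith
  refine (ENNReal.ofReal_le_ofReal (h N T hN hT)).trans ?_
  rw [ENNReal.ofReal_sum_of_nonneg fun d _ => gT_nonneg T d]
  have e : ∀ d ∈ Ico N (2 * N), ENNReal.ofReal (gT T d) = GG T d :=
    fun d _ => ENNReal.ofReal_toReal (GG_ne_top hT1 d)
  rw [sum_congr rfl e, sum_Ico_eq_sum_range]
  exact ENNReal.sum_le_tsum _

end GLd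

end HexObs
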